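import Mathlib
import Pool.Agent.Run7.h643.JW.All
import Pool.Agent.Run7.h643.MW.RunsM

/-!
# The modular Schanuel conjecture with derivatives at points whose modular invariants are consecutive primes

Let `j` be the modular invariant. The conjecture says that for points `z_1, …, z_n` of the upper half-plane which are not
special and pairwise not equivalent under `GL_2^+(ℚ)` the numbers `z_i, j(z_i), j'(z_i), j''(z_i)` generate a field of
transcendence degree at least `3 n`, and that special points `τ_l` with `j'(τ_l) ≠ 0`, pairwise inequivalent, contribute one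
more each, by the numbers `j'(τ_l)`.

Let `t` and `r` be given. There are numbers `L`, `C` and an infinite set `M` of natural numbers such that for all
`N_1, …, N_t` in `M`, all signs and arbitrary complex numbers `w_1, …, w_q` (for instance values of `j'` at special points)
there are in each of the intervals `(N_a, N_a + L]` `r` consecutive prime numbers `p_(a,1) < … < p_(a,r)` such that for **all**
points `z_(a,i)` with `j(z_(a,i)) = ± p_(a,i)` (the sign depends on `a` only) the `3 t r` numbers `z_(a,i)`, `j'(z_(a,i))`,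
`j''(z_(a,i))` satisfy no relation of degree at most `δ` over number fields of degree at most `δ` and over `2πi`,
`w_1, …, w_q`, for all `δ` up to a fixed power of `log min N_a`. There is no bound for the heights of the coefficients. The
set `M` does not depend on the `w`, and the `N_a` may be in any position to each other; they may even be equal.

The number of such relations which is predicted by the conjecture is zero (unless the `w` are dependent); for `t = 1`,
`w = 0` the theorem says that there are infinitely many intervals of bounded length with `r` consecutive primes which are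
values of `j` at points for which the conjecture is true in degree `δ`, where `δ` tends to infinity with the primes.

The proof: (1) the starting theorem on windows with a bounded number of exceptional integers
(`Pool.Agent.R351.GD.winZ2_exp`, `MP_f58a57_nt.GrowingDegreeWindows`), applied to `t` windows one after the other, where
the numbers of the earlier windows become constants; the exceptional sets depend only on the integers chosen before, and not
on the points over them, by the formulas for `j'`, `j''` at equivalent points; (2) the theorem of Maynard and Tao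
(`Pool.Agent.H362R2.CM.quarter`, starting files): there are infinitely many intervals of bounded length with so many primes
that `r` consecutive ones avoid the exceptional numbers.
-/

set_option autoImplicit false

namespace Pool.Agent.Results.MP_5e64e7_nt.ConsecutivePrimes

/-- the normalised Eisenstein series of weight `4` -/
noncomputable def E4 (τ : ℂ) : ℂ :=
  1 + 240 * ∑' m : ℕ, ((ArithmeticFunction.sigma 3 (m + 1) : ℕ) : ℂ) *
    Complex.exp (2 * (Real.pi : ℂ) * Complex.I * ((m : ℂ) + 1) * τ)

/-- the normalised Eisenstein series of weight `6` -/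
noncomputable def E6 (τ : ℂ) : ℂ :=
  1 - 504 * ∑' m : ℕ, ((ArithmeticFunction.sigma 5 (m + 1) : ℕ) : ℂ) *
    Complex.exp (2 * (Real.pi : ℂ) * Complex.I * ((m : ℂ) + 1) * τ)

/-- the modular invariant `j = q⁻¹ + 744 + 196884 q + ⋯` -/
noncomputable def J (τ : ℂ) : ℂ := 1728 * E4 τ ^ 3 / (E4 τ ^ 3 - E6 τ ^ 2)

/-- the numbers `z`, `j'(z)`, `j''(z)` -/
noncomputable def numbers (z : ℂ) : Fin 3 → ℂ := ![z, deriv J z, deriv (deriv J) z]

/-- The numbers `x` are free up to degree `δ` over `2πi` and `w`: if `K` is a number field of degree at most `δ` and `P` is a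
polynomial over `K` of degree at most `δ` with `P(2πi, w, x) = 0`, then `P(2πi, w, Y) = 0` identically in `Y`. -/
def Free (δ : ℕ) {q : ℕ} {ι : Type} (w : Fin q → ℂ) (x : ι → ℂ) : Prop :=
  ∀ K : IntermediateField ℚ ℂ, FiniteDimensional ℚ K → Module.finrank ℚ K ≤ δ →
  ∀ P : MvPolynomial (Option (Fin q) ⊕ ι) K, P.totalDegree ≤ δ →
    MvPolynomial.aeval (Sum.elim (fun o => o.elim (2 * Real.pi * Complex.I) w) x) P = 0 →
    MvPolynomial.aeval (Sum.elim (fun o => MvPolynomial.C (o.elim (2 * Real.pi * Complex.I) w)) MvPolynomial.X) P =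
      (0 : MvPolynomial ι ℂ)

open Pool.Agent.Y120.J (si jt)
open Pool.Agent.Y120.K (wo)
open Pool.Agent.TH21.MS (jj)

theorem J_eq : J = Pool.Agent.TH21.MS.jj := by
  have h4 : E4 = Pool.Agent.TH21.MS.E4 := funext Pool.Agent.Y120.J.E4_same
  have h6 : E6 = Pool.Agent.TH21.MS.E6 := funext Pool.Agent.Y120.J.E6_same
  funext τ
  unfold J Pool.Agent.TH21.MS.jj
  rw [h4, h6]

theorem numbers_eq (z : ℂ) : numbers z = jt z := by
  unfold numbers jt
  rw [J_eq]

theorem wo_eq {q : ℕ} (w : Fin q → ℂ) (o : Option (Fin q)) : o.elim (2 * Real.pi * Complex.I) w = wo w o := by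
  rcases o with _ | o <;> rfl

theorem sign {ε : ℤ} (hε : ε = 1 ∨ ε = -1) : ∃ s : Bool, si s = ε := by
  rcases hε with h | h
  · exact ⟨true, by rw [h]; rfl⟩
  · exact ⟨false, by rw [h]; rfl⟩

theorem free_of {δ q : ℕ} {ι : Type} {w : Fin q → ℂ} {x : ι → ℂ}
    (h : ∀ K : IntermediateField ℚ ℂ, FiniteDimensional ℚ K → Module.finrank ℚ K ≤ δ →
      ∀ P : MvPolynomial (Option (Fin q) ⊕ ι) K, P.totalDegree ≤ δ →
        MvPolynomial.aeval (Sum.elim (wo w) x) P = 0 → ∀ u, MvPolynomial.aeval (Sum.elim (wo w) u) P = 0) :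
    Free δ w x := by
  intro K hK hKd P hPd hP0
  have h1 : (fun o : Option (Fin q) => o.elim (2 * Real.pi * Complex.I) w) = wo w := funext (wo_eq w)
  rw [h1] at hP0
  apply MvPolynomial.funext
  intro u
  rw [Pool.Agent.Run7.h643.MX.eval_aeval (fun o : Option (Fin q) => o.elim (2 * Real.pi * Complex.I) w), map_zero, h1]
  exact h K hK hKd P hPd hP0 u

/-- For all `t`, `r`, `q` there are `L`, `C` and an infinite set `M` of natural numbers such that for all `N_1, …, N_t` in `M`,
all signs `ε_1, …, ε_t` and all `w_1, …, w_q ∈ ℂ` there are for all `a` `r` consecutive primes `p_(a,1) < … < p_(a,r)` in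
`(N_a, N_a + L]`, such that for all `δ` with `(δ + 2)^C ≤ log N_a` for all `a` and all points `z_(a,i)` of the upper half-plane
with `j(z_(a,i)) = ε_a p_(a,i)` the `3 t r` numbers `z_(a,i)`, `j'(z_(a,i))`, `j''(z_(a,i))` are free up to degree `δ` over `2πi`
and `w`. -/
theorem result (t r q : ℕ) : ∃ (L C : ℕ) (M : Set ℕ), M.Infinite ∧ ∀ N : Fin t → ℕ, (∀ a, N a ∈ M) →
    ∀ ε : Fin t → ℤ, (∀ a, ε a = 1 ∨ ε a = -1) → ∀ w : Fin q → ℂ, ∃ k : Fin t → ℕ,
      (∀ a (i : Fin r), N a < Nat.nth Nat.Prime (k a + i) ∧ Nat.nth Nat.Prime (k a + i) ≤ N a + L) ∧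
      ∀ δ : ℕ, (∀ a, ((δ : ℝ) + 2) ^ C ≤ Real.log (N a)) → ∀ z : Fin t → Fin r → ℂ,
        (∀ a i, 0 < (z a i).im ∧ J (z a i) = ε a * (Nat.nth Nat.Prime (k a + i) : ℂ)) →
        Free δ w fun v : (Fin t × Fin r) × Fin 3 => numbers (z v.1.1 v.1.2) v.2 := by
  classical
  rcases Nat.eq_zero_or_pos r with hr | hr
  · subst hr
    refine ⟨0, 1, Set.univ, Set.infinite_univ, fun N _ ε _ w => ⟨fun _ => 0, fun j i => i.elim0, fun δ _ z _ => ?_⟩⟩
    refine free_of fun K _ _ P _ hP0 u => ?_
    rw [← hP0]
    congr 2
    funext a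
    rcases a with a | a
    · rfl
    · exact a.1.2.elim0
  obtain ⟨E, ⟨C, hC⟩, hE⟩ := Pool.Agent.Run7.h643.JW.jwinM q (t := t) (fun _ => r)
  obtain ⟨L, M, hM, hL⟩ := Pool.Agent.Run7.h643.MW.runsM r (q + t * (r * 3) + 2) C hr
  refine ⟨L, C + 1, M, hM, fun N hN ε hε w => ?_⟩
  choose s hs using fun a => sign (hε a)
  obtain ⟨k, hk, hfree⟩ := hL t N hN (fun δ n => ∀ z : Fin t → Fin r → UpperHalfPlane,
      (∀ a i, jj (z a i) = si (s a) * ((N a + n a i : ℕ) : ℂ)) →
      ∀ K : IntermediateField ℚ ℂ, FiniteDimensional ℚ K → Module.finrank ℚ K ≤ δ →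
        ∀ P : MvPolynomial (Option (Fin q) ⊕ (Σ _ : Fin t, Fin r × Fin 3)) K, P.totalDegree ≤ δ →
          MvPolynomial.aeval (Sum.elim (wo w) fun v : (Σ _ : Fin t, Fin r × Fin 3) => jt (z v.1 v.2.1) v.2.2) P = 0 →
          ∀ u, MvPolynomial.aeval (Sum.elim (wo w) u) P = 0)
    (fun δ δ' n hgood hle z hz K hK hKd P hPd => hgood z hz K hK (hKd.trans hle) P (hPd.trans hle))
    (fun δ hLN => by
      obtain ⟨T, hT1, hT2, hT3⟩ := hE δ w (fun a _ => N a) (fun _ _ => L) (fun a _ => s a)
        (fun _ _ _ _ => ⟨rfl, rfl, rfl⟩)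
      refine ⟨T, fun a n => ?_, hT2, fun n hinj hn z hz => ?_⟩
      · refine (hT1 a n).trans ?_
        have h4 : (∑ i ∈ Finset.Iio a, r * 3) ≤ t * (r * 3) := by
          rw [Finset.sum_const, smul_eq_mul]
          refine Nat.mul_le_mul_right _ ?_
          refine (Finset.card_le_univ _).trans ?_
          rw [Fintype.card_fin]
        omega
      · refine hT3 n (fun a => ?_) hinj (fun a i => ⟨(hn a i).2.1, (hn a i).2.2⟩) z hz
        have h1 : ((L : ℝ) + 2) ^ E δ ≤ N a := (pow_le_pow_right₀ (by
          linarith [(Nat.cast_nonneg L : (0 : ℝ) ≤ L)]) (hC δ)).trans (hLN a)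
        exact_mod_cast h1)
  refine ⟨k, hk, fun δ hδ z hz => ?_⟩
  rcases Nat.eq_zero_or_pos t with ht | ht
  · subst ht
    refine free_of fun K _ _ P _ hP0 u => ?_
    rw [← hP0]
    congr 2
    funext a
    rcases a with a | a
    · rfl
    · exact a.1.1.elim0
  have h8 := hfree ht δ hδ (fun a i => ⟨z a i, (hz a i).1⟩) (fun a i => by
    have h1 := (hz a i).2
    rw [J_eq] at h1
    have h10 := (hk a i).1
    have h11 : N a + (Nat.nth Nat.Prime (k a + i) - N a) = Nat.nth Nat.Prime (k a + i) := by omega
    rw [h11, hs a]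
    exact h1)
  refine free_of fun K hK hKd P hPd hP0 u => ?_
  have h9 := h8 K hK hKd (MvPolynomial.rename (Sum.map id fun x : (Fin t × Fin r) × Fin 3 =>
      (⟨x.1.1, (x.1.2, x.2)⟩ : (Σ _ : Fin t, Fin r × Fin 3))) P)
    ((MvPolynomial.totalDegree_rename_le _ _).trans hPd) (by
      rw [MvPolynomial.aeval_rename, ← hP0]
      congr 2
      funext x
      rcases x with x | x
      · rfl
      · simp only [Function.comp_apply, Sum.map_inr, Sum.elim_inr]
        rw [numbers_eq]) (fun x => u ((x.1, x.2.1), x.2.2))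
  rw [MvPolynomial.aeval_rename] at h9
  rw [← h9]
  congr 2
  funext x
  rcases x with x | x <;> rfl

end Pool.Agent.Results.MP_5e64e7_nt.ConsecutivePrimes
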