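import Pool.Agent.Results.MP_5e64e7_nt.AlmostAllRationalNomes
import Pool.Agent.Run7.h95.LF.Frac

/-!
# The modular function and its derivatives at all rational nomes near the values of generic systems of linear forms

Let `v_i`, `i` in a countable set, be vectors in `ℝ^k` such that for every `ε > 0` at most `C X ^ (τ + ε)` of them have norm at
most `X`; for instance all `(b_1^(n_1), …, b_k^(n_k))` with `b_j > 1` (`τ = 0`), all `(1, n, …, n^d)` (`τ = 1 / d`), or all
`(n_1^(a_1), …, n_k^(a_k))` (`τ` the sum of the `1 / a_j`).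
Let `[a, b] ⊂ (0, 1)`, `A ≥ 0` and `β > 2 - 2 / ((d + 1)^(4 n + 1) + 1)`. There is `B` such that for all such families,
`0 ≤ θ < 1`, all real `2 n × k` matrices `M` outside a set of Hausdorff dimension at most
`2 n (k - 1) + (2 (n - 1) + β + τ) / (1 - θ)` (less than `2 n k` for `2 n θ < 2 - β - τ`), each `c` and all but finitely many
`i` the following is true for ALL tuples `q = (q_1, …, q_n)` of fractions in `[a, b]` whose denominators and numerators differ
by at most `c |v_i| ^ θ` from the entries of `M v_i`: no nonzero polynomial of degree at most `d` in each variable with integer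
coefficients of absolute value at most `H(q) ^ A` takes at the `4 n + 1` numbers `π` and `log x_k`, `j (z_k)`, `D j (z_k)`,
`D² j (z_k)`, where `exp (2πi z_k) = x_k = q_k`, a value of absolute value at most `H(q) ^ (-B)`, `H(q)` the height of `q`. (The
starting files treat tuples near `f_k(u)`, radial starshaped maps.)

Proof. The starting theorem `AlmostAllRationalNomes` bounds the number of the exceptional `q` with denominators at most `T`; the
matrices with such a `q` in the window of `v_i` form products of slabs, which are covered by few small cubes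
(`Pool.Agent.N251.LF`).
-/

set_option autoImplicit false

namespace Pool.Agent.Results.MP_5e64e7_nt.GenericLinearForms

open AlmostAllRationalNomes (numbers)
open Pool.Agent.N251.LF (Fam Sq examples)

/-- the height of a tuple of rational numbers: the maximum of the absolute values of the numerators and denominators -/
def ht {n : ℕ} (q : Fin n → ℚ) : ℕ := Finset.univ.sup fun j => max (q j).num.natAbs (q j).den

/-- The denominators and the numerators of the `q j` differ by at most `δ` from the entries of `M x`; the `2 n` rows of `M` are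
numbered by the pairs `(j, 0)` (denominator of `q j`) and `(j, 1)` (numerator of `q j`). -/
def Near {n k : ℕ} (M : Fin (n * 2) × Fin k → ℝ) (x : Fin k → ℝ) (δ : ℝ) (q : Fin n → ℚ) : Prop :=
  ∀ j, |((q j).den : ℝ) - ∑ l, M (finProdFinEquiv (j, 0), l) * x l| ≤ δ ∧
    |((q j).num : ℝ) - ∑ l, M (finProdFinEquiv (j, 1), l) * x l| ≤ δ

/-- **Theorem.** Let `n ≥ 1`, `[a, b] ⊂ (0, 1)`, `A ≥ 0` and `β > 2 - 2 / ((d + 1)^(4 n + 1) + 1)`. There is `B` such that for
every family `v` of vectors in `ℝ^k` with at most `C X ^ (τ + η)` members of norm at most `X`, for every `η > 0`, and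
`0 ≤ θ < 1` there is a set `E` of real `2 n × k` matrices of Hausdorff dimension at most
`2 n (k - 1) + (2 (n - 1) + β + τ) / (1 - θ)` (less than `2 n k`, and of measure zero, if `2 n θ < 2 - β - τ`) such that for
each matrix `M` outside `E`, each `c` and all but finitely many `i`, for ALL tuples `q` of rational numbers in `[a, b]` whose
denominators and numerators differ by at most `c ‖v_i‖ ^ θ` from the entries of `M v_i`, and `H` the height of `q`: no nonzero
polynomial of degree at most `d` in each variable with integer coefficients of absolute value at most `H ^ A` takes at the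
`4 n + 1` numbers `π` and `log x_k`, `j (z_k)`, `D j (z_k)`, `D² j (z_k)` (`exp (2πi z_k) = x_k = q_k`) a value of absolute
value at most `H ^ (-B)`. Examples of families. -/
theorem result (n d : ℕ) (hn : 1 ≤ n) (a b : ℝ) (ha : 0 < a) (hab : a < b) (hb : b < 1) (A β : ℝ) (hA : 0 ≤ A)
    (hβ : 2 - 2 / (((d : ℝ) + 1) ^ (4 * n + 1) + 1) < β) :
    (∃ B : ℝ, ∀ (k : ℕ) (ι : Type) (v : ι → Fin k → ℝ) (τ θ : ℝ), 0 ≤ τ → 0 ≤ θ → θ < 1 → Fam v τ →
      ∃ E : Set (Fin (n * 2) × Fin k → ℝ),
        dimH E ≤ ENNReal.ofReal (2 * n * ((k : ℝ) - 1) + (2 * ((n : ℝ) - 1) + β + τ) / (1 - θ)) ∧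
        (1 ≤ k → 2 * n * θ < 2 - β - τ → dimH E < ((n * 2 * k : ℕ) : ENNReal) ∧ MeasureTheory.volume E = 0) ∧
        ∀ M, M ∉ E → ∀ c : ℝ, {i | ¬ ∀ q : Fin n → ℚ, (∀ j, a ≤ q j ∧ q j ≤ b) →
          Near M (v i) (c * ‖v i‖ ^ θ) q →
          ∀ P : MvPolynomial (Option (Fin n × Fin 4)) ℤ, P ≠ 0 → (∀ x, P.degreeOf x ≤ d) →
            (∀ s, |((P.coeff s : ℤ) : ℝ)| ≤ (ht q : ℝ) ^ A) →
              (ht q : ℝ) ^ (-B) < ‖MvPolynomial.aeval (numbers q) P‖}.Finite) ∧
    (∀ d : ℕ, 1 ≤ d → Fam (fun (n : ℕ) (j : Fin (d + 1)) => (n : ℝ) ^ (j : ℕ)) (1 / d)) ∧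
    (∀ (k : ℕ) (b : Fin k → ℝ), (∀ j, 1 < b j) → Fam (fun (n : Fin k → ℕ) (j : Fin k) => b j ^ n j) 0) ∧
    (∀ (k : ℕ) (a : Fin k → ℝ), (∀ j, 0 < a j) →
      Fam (fun (n : Fin k → ℕ) (j : Fin k) => (n j : ℝ) ^ a j) (∑ j, 1 / a j)) ∧
    ∀ (k : ℕ) (u : Fin k → ℕ → ℝ) (τ : Fin k → ℝ), (∀ j, Sq (u j) (τ j)) →
      Fam (fun (n : Fin k → ℕ) (j : Fin k) => u j (n j)) (∑ j, τ j) :=
  ⟨Run7.h95.LF.poly_tuple hn (fun _ => a) (fun _ => b) (fun q P => ‖MvPolynomial.aeval (numbers q) P‖) d hA
    (Pool.Agent.R482.ST.beta_pos hβ) (AlmostAllRationalNomes.result n d hn a b ha hab hb A β hA hβ), examples⟩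

end Pool.Agent.Results.MP_5e64e7_nt.GenericLinearForms
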