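import Pool.Agent.Run7.h467.GA.Lev
import Pool.Agent.Results.MP_5e64e7_nt.AlmostAllRationalNomes

/-!
# Values of `j`, `j'`, `j''` at the points `log x / (2πi)`, for ALL tuples of rational numbers `x` near almost every point

For points `z_k = log x_k / (2πi)` with rational nomes `x_k = exp (2πi z_k)`, `0 < x_k < 1`, one expects that the `4 n + 1`
numbers `π`, `log x_k`, `j (z_k)`, `D j (z_k)`, `D² j (z_k)` (`D = (1/2πi) d/dz`) are algebraically independent if the `x_k` are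
multiplicatively independent; this contains the modular Schanuel conjecture with derivatives for these points.

Theorem. Let `n ≥ 1`, `d`, `A ≥ 0`, `ω > 0`. For all points `ξ` of `(0, 1) ^ n` but a set of Hausdorff dimension at most
`(2 n - 2 / ((d + 1) ^ (4 n + 1) + 1)) / ω` there is `B` such that for all `c` and all large `T` and ALL `n`-tuples `x` of
rational numbers with denominators at most `T` and `|x_k - ξ_k| ≤ c T ^ (-ω)` for all `k`: no nonzero polynomial with integer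
coefficients of absolute value at most `T ^ A`, of degree at most `d` in each variable, takes at the `4 n + 1` numbers a value
of absolute value at most `T ^ (-B)`. The exceptional set has measure zero if `ω > 2 - 2 / (n ((d + 1) ^ (4 n + 1) + 1))`; for
`ω < 2` almost every point `ξ` has about `T ^ (n (2 - ω))` such tuples `x`, for all large `T`. For example all tuples of
convergents `x_k` of the `ξ_k` are considered whose denominators are between `T ^ (ω / 2)` and `T`.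

The starting theorem `AlmostAllRationalNomes` bounds the number of the exceptional tuples with denominators at most `T` in
`[a, b] ^ n` by `C T ^ (2 (n - 1) + β)`, out of about `T ^ (2 n)`; this does not exclude exceptional tuples near all points.
-/

set_option autoImplicit false

open Filter Topology

namespace Pool.Agent.Results.MP_5e64e7_nt.NearAlmostEveryPoint

open AlmostAllRationalNomes (numbers Exceptional)

/-- There is `B` such that for all `c`, all large `T` and all tuples `x` of rational numbers with denominators at most `T` and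
`|x_k - ξ_k| ≤ c T ^ (-ω)` the numbers `π`, `log x_k`, `j (z_k)`, `D j (z_k)`, `D² j (z_k)` satisfy no relation, not even an
approximate one, of degree at most `d` in each variable with coefficients at most `T ^ A`. -/
def NoRelationNear {n : ℕ} (d : ℕ) (A ω : ℝ) (ξ : Fin n → ℝ) : Prop :=
  ∃ B : ℝ, ∀ c : ℝ, ∃ T₀ : ℝ, ∀ T : ℝ, T₀ ≤ T → ∀ x : Fin n → ℚ,
    (∀ k, ((x k).den : ℝ) ≤ T ∧ |ξ k - x k| ≤ c * T ^ (-ω)) →
      ∀ P : MvPolynomial (Option (Fin n × Fin 4)) ℤ, P ≠ 0 → (∀ i, P.degreeOf i ≤ d) →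
        (∀ s, |((P.coeff s : ℤ) : ℝ)| ≤ T ^ A) → T ^ (-B) < ‖MvPolynomial.aeval (numbers x) P‖

/-- **Theorem.** Let `n ≥ 1`, `d`, `A ≥ 0` and `ω > 0`. The points `ξ` of `(0, 1) ^ n` for which `NoRelationNear` fails form a
set of Hausdorff dimension at most `(2 n - 2 / ((d + 1) ^ (4 n + 1) + 1)) / ω`. -/
theorem result (n d : ℕ) (hn : 1 ≤ n) (A ω : ℝ) (hA : 0 ≤ A) (hω : 0 < ω) :
    dimH {ξ : Fin n → ℝ | (∀ k, 0 < ξ k ∧ ξ k < 1) ∧ ¬ NoRelationNear d A ω ξ} ≤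
      ENNReal.ofReal ((2 * n - 2 / (((d : ℝ) + 1) ^ (4 * n + 1) + 1)) / ω) := by
  have hn1 : (1 : ℝ) ≤ n := by exact_mod_cast hn
  have hM : (1 : ℝ) ≤ ((d : ℝ) + 1) ^ (4 * n + 1) := one_le_pow₀ (by linarith [Nat.cast_nonneg (α := ℝ) d])
  obtain ⟨M, hMdef⟩ : ∃ M : ℝ, M = 2 / (((d : ℝ) + 1) ^ (4 * n + 1) + 1) := ⟨_, rfl⟩
  have hM0 : 0 < M := by rw [hMdef]; positivity
  have hM1 : M ≤ 1 := by
    rw [hMdef, div_le_one (by linarith)]
    linarith
  rw [← hMdef]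
  apply ENNReal.le_of_forall_pos_le_add
  intro ε hε _
  have hε' : (0 : ℝ) < ε := by exact_mod_cast hε
  have hnn : 0 ≤ (2 * n - M) / ω := div_nonneg (by linarith) hω.le
  obtain ⟨β, hβ⟩ : ∃ β : ℝ, β = 2 - M + ω * ε / 2 := ⟨_, rfl⟩
  have hωε : 0 < ω * ε := by positivity
  have hβ2 : 2 - 2 / (((d : ℝ) + 1) ^ (4 * n + 1) + 1) < β := by
    rw [← hMdef, hβ]
    linarith
  obtain ⟨e, he⟩ : ∃ e : ℝ, e = 2 * ((n : ℝ) - 1) + β := ⟨_, rfl⟩
  have he0 : 0 ≤ e := by rw [he, hβ]; linarith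
  have heD : e < ω * ((2 * n - M) / ω + ε) := by
    rw [mul_add, mul_div_cancel₀ _ hω.ne', he, hβ]
    linarith
  -- the constants for the cube of index `K`
  obtain ⟨a, ha⟩ : ∃ a : ℕ → ℝ, a = fun K : ℕ => 1 / (2 * ((K : ℝ) + 2)) := ⟨_, rfl⟩
  have ha0 : ∀ K, 0 < a K := fun K => by rw [ha]; positivity
  have ha1 : ∀ K, a K ≤ 1 / 4 := fun K => by
    rw [ha]
    simp only
    apply one_div_le_one_div_of_le (by norm_num)
    linarith [Nat.cast_nonneg (α := ℝ) K]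
  have hfam : ∀ K : ℕ, ∃ B C : ℝ, ∀ T : ℝ, 1 ≤ T → (Exceptional n d (a K) (1 - a K) A B T).Finite ∧
      ((Exceptional n d (a K) (1 - a K) A B T).ncard : ℝ) ≤ C * T ^ e := by
    intro K
    obtain ⟨B, C, h⟩ := AlmostAllRationalNomes.result n d hn (a K) (1 - a K) (ha0 K) (by linarith [ha1 K])
      (by linarith [ha0 K]) A β hA hβ2
    exact ⟨B, C, fun T hT => by rw [he]; exact h T hT⟩
  choose B C hBC using hfam
  have hdim : ∀ z : ℕ × ℕ, dimH {ξ : Fin n → ℝ | ∀ m : ℕ, ∃ j : ℕ, m ≤ j ∧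
      ∃ x ∈ Exceptional n d (a z.1) (1 - a z.1) A (B z.1) ((2 : ℝ) ^ (j + 1)),
        ∀ k, |ξ k - x k| ≤ ((z.2 : ℝ) + 1) * ((2 : ℝ) ^ j) ^ (-ω)} ≤ ENNReal.ofReal ((2 * n - M) / ω + ε) := by
    intro z
    refine Run7.h467.GA.levels (fun j => Exceptional n d (a z.1) (1 - a z.1) A (B z.1) ((2 : ℝ) ^ (j + 1))) he0 hω heD
      |C z.1| (abs_nonneg _) (fun j => ?_) ((z.2 : ℝ) + 1) (by positivity)
    have h1 := hBC z.1 ((2 : ℝ) ^ (j + 1)) (one_le_pow₀ (by norm_num))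
    exact ⟨h1.1, h1.2.trans (mul_le_mul_of_nonneg_right (le_abs_self _) (by positivity))⟩
  rw [← ENNReal.ofReal_coe_nnreal, ← ENNReal.ofReal_add hnn hε'.le]
  refine (dimH_mono (t := ⋃ z : ℕ × ℕ, {ξ : Fin n → ℝ | ∀ m : ℕ, ∃ j : ℕ, m ≤ j ∧
      ∃ x ∈ Exceptional n d (a z.1) (1 - a z.1) A (B z.1) ((2 : ℝ) ^ (j + 1)),
        ∀ k, |ξ k - x k| ≤ ((z.2 : ℝ) + 1) * ((2 : ℝ) ^ j) ^ (-ω)}) ?_).trans ?_
  swap
  · rw [dimH_iUnion]
    exact iSup_le hdim
  rintro ξ ⟨hξ, hno⟩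
  -- the cube of `ξ`
  obtain ⟨K, hK⟩ : ∃ K : ℕ, ∀ k, 2 * a K ≤ ξ k ∧ ξ k ≤ 1 - 2 * a K := by
    obtain ⟨K, hK⟩ := exists_nat_ge (∑ k, (1 / ξ k + 1 / (1 - ξ k)))
    refine ⟨K, fun k => ?_⟩
    have h1 := (hξ k).1
    have h2 : 0 < 1 - ξ k := by linarith [(hξ k).2]
    have h3 : 1 / ξ k + 1 / (1 - ξ k) ≤ K := by
      refine le_trans ?_ hK
      exact Finset.single_le_sum (f := fun k => 1 / ξ k + 1 / (1 - ξ k)) (fun i _ => by
        have := (hξ i).1
        have : 0 < 1 - ξ i := by linarith [(hξ i).2]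
        positivity) (Finset.mem_univ k)
    have h4 : 0 < 1 / ξ k := by positivity
    have h5 : 0 < 1 / (1 - ξ k) := by positivity
    have h6 : 2 * a K = 1 / ((K : ℝ) + 2) := by
      rw [ha]
      field_simp
    have hK2 : (0 : ℝ) < (K : ℝ) + 2 := by positivity
    constructor
    · rw [h6, div_le_iff₀ hK2]
      have h7 : 1 / ξ k ≤ (K : ℝ) + 2 := by linarith
      rw [div_le_iff₀ h1] at h7
      linarith
    · have h7 : 1 / (1 - ξ k) ≤ (K : ℝ) + 2 := by linarith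
      rw [div_le_iff₀ h2] at h7
      have h8 : 2 * a K ≤ 1 - ξ k := by
        rw [h6, div_le_iff₀ hK2]
        linarith
      linarith
  obtain ⟨B1, hB1⟩ : ∃ B1 : ℝ, B1 = max (B K) 0 := ⟨_, rfl⟩
  have hB10 : 0 ≤ B1 := by rw [hB1]; exact le_max_right _ _
  have hBB1 : B K ≤ B1 := by rw [hB1]; exact le_max_left _ _
  have hno2 : ¬ ∀ c : ℝ, ∃ T₀ : ℝ, ∀ T : ℝ, T₀ ≤ T → ∀ x : Fin n → ℚ,
      (∀ k, ((x k).den : ℝ) ≤ T ∧ |ξ k - x k| ≤ c * T ^ (-ω)) →
      ∀ P : MvPolynomial (Option (Fin n × Fin 4)) ℤ, P ≠ 0 → (∀ i, P.degreeOf i ≤ d) →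
        (∀ s, |((P.coeff s : ℤ) : ℝ)| ≤ T ^ A) → T ^ (-(B1 + 1)) < ‖MvPolynomial.aeval (numbers x) P‖ :=
    fun h => hno ⟨B1 + 1, h⟩
  push Not at hno2
  obtain ⟨c, hc⟩ := hno2
  obtain ⟨K1, hK1⟩ := exists_nat_ge c
  rw [Set.mem_iUnion]
  refine ⟨(K, K1), fun m => ?_⟩
  -- a large `T`
  have hlim : ∀ᶠ T : ℝ in atTop, ((K1 : ℝ) + 1) * T ^ (-ω) ≤ a K := by
    have h1 := (tendsto_rpow_neg_atTop hω).const_mul ((K1 : ℝ) + 1)
    rw [mul_zero] at h1
    exact h1.eventually (ge_mem_nhds (ha0 K))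
  obtain ⟨T₁, hT₁⟩ := eventually_atTop.1 hlim
  obtain ⟨T, hT, x, hx, P, hP, hPd, hPA, hPv⟩ := hc (max (max T₁ ((2 : ℝ) ^ m)) ((2 : ℝ) ^ B1))
  have hTT1 : T₁ ≤ T := ((le_max_left _ _).trans (le_max_left _ _)).trans hT
  have hTm : (2 : ℝ) ^ m ≤ T := ((le_max_right _ _).trans (le_max_left _ _)).trans hT
  have hTB : (2 : ℝ) ^ B1 ≤ T := (le_max_right _ _).trans hT
  have hT1 : 1 ≤ T := le_trans (one_le_pow₀ (by norm_num)) hTm
  have hT0 : 0 < T := by linarith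
  obtain ⟨j, hj⟩ : ∃ j : ℕ, j = Nat.log 2 ⌊T⌋₊ := ⟨_, rfl⟩
  have hfl : 1 ≤ ⌊T⌋₊ := Nat.le_floor (by exact_mod_cast hT1)
  have hj1 : (2 : ℝ) ^ j ≤ T := by
    have h1 : 2 ^ j ≤ ⌊T⌋₊ := by rw [hj]; exact Nat.pow_log_le_self 2 (by omega)
    have h2 : ((2 ^ j : ℕ) : ℝ) ≤ ⌊T⌋₊ := by exact_mod_cast h1
    have h3 := Nat.floor_le hT0.le
    push_cast at h2
    linarith
  have hj2 : T ≤ (2 : ℝ) ^ (j + 1) := by
    have h1 : ⌊T⌋₊ + 1 ≤ 2 ^ (j + 1) := by rw [hj]; exact Nat.lt_pow_succ_log_self (by norm_num) _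
    have h2 : ((⌊T⌋₊ + 1 : ℕ) : ℝ) ≤ (2 : ℝ) ^ (j + 1) := by exact_mod_cast h1
    have h3 := (Nat.lt_floor_add_one T).le
    push_cast at h2
    linarith
  have hmj : m ≤ j := by
    rw [hj]
    apply Nat.le_log_of_pow_le (by norm_num)
    apply Nat.le_floor
    push_cast
    exact hTm
  have hradT : ((K1 : ℝ) + 1) * T ^ (-ω) ≤ a K := hT₁ T hTT1
  have hxk : ∀ k, |ξ k - x k| ≤ ((K1 : ℝ) + 1) * T ^ (-ω) := fun k =>
    (hx k).2.trans (mul_le_mul_of_nonneg_right (by linarith) (by positivity))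
  refine ⟨j, hmj, x, ⟨fun k => ?_, P, hP, hPd, fun s => ?_, ?_⟩, fun k => ?_⟩
  · have h1 := abs_le.1 ((hxk k).trans hradT)
    have h2 := hK k
    exact ⟨by linarith [h1.2, h2.1, ha0 K], by linarith [h1.1, h2.2, ha0 K], ((hx k).1).trans hj2⟩
  · exact (hPA s).trans (Real.rpow_le_rpow hT0.le hj2 hA)
  · refine hPv.trans ?_
    have h2T : (2 : ℝ) ^ (j + 1) ≤ 2 * T := by
      rw [pow_succ]
      linarith
    have hp1 : (1 : ℝ) ≤ (2 : ℝ) ^ (j + 1) := one_le_pow₀ (by norm_num)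
    calc T ^ (-(B1 + 1)) = T ^ (-B1) * T ^ (-(1 : ℝ)) := by
          rw [← Real.rpow_add hT0]
          congr 1
          ring
      _ ≤ T ^ (-B1) * (2 : ℝ) ^ (-B1) := by
          apply mul_le_mul_of_nonneg_left _ (by positivity)
          rw [Real.rpow_neg hT0.le, Real.rpow_one, Real.rpow_neg (by norm_num)]
          exact inv_anti₀ (by positivity) hTB
      _ = (2 * T) ^ (-B1) := by
          rw [Real.mul_rpow (by norm_num) hT0.le]
          ring
      _ ≤ ((2 : ℝ) ^ (j + 1)) ^ (-B1) := Real.rpow_le_rpow_of_nonpos (by positivity) h2T (by linarith)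
      _ ≤ ((2 : ℝ) ^ (j + 1)) ^ (-(B K)) := Real.rpow_le_rpow_of_exponent_le hp1 (by linarith)
  · refine (hxk k).trans ?_
    apply mul_le_mul_of_nonneg_left _ (by positivity)
    exact Real.rpow_le_rpow_of_nonpos (by positivity) hj1 (by linarith)

end Pool.Agent.Results.MP_5e64e7_nt.NearAlmostEveryPoint
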