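import Pool.Agent.Results.MP_5e64e7_nt.AlmostAllRationalNomes
import Pool.Agent.Run7.h95.NP.Frac

/-!
# The modular function and its derivatives at all rational nomes near products of linear forms

Let `[a, b] ⊂ (0, 1)`, `A ≥ 0` and `β > 2 - 2 / ((d + 1)^(4 n + 1) + 1)`. There is `B` such that for all `0 ≤ θ`, `R ≥ 0`,
`h ≥ 1` and `0 ≤ σ ≤ 1` with `σ < h (2 - β - 2 n θ)` the following is true for all integer vectors `x` in `[-X, X]^D` with at
most `C Q^(2 n h (D + 2)) X^(D - σ)` exceptions, `C` depending on `D`, and for ALL vectors `t` of `2 n` products of `h` linear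
forms, `t_l = ∏_(i ≤ h) y_(l,i)` with `y = M x + z`, `M` an integral matrix of rank `2 n h`, `z` an integral vector, the entries
of `M` and `z` at most `Q`, all `y_(l,i) ≠ 0`: for ALL tuples `q = (q_1, …, q_n)` of fractions in `[a, b]` whose denominators and
numerators differ by at most `R |t| ^ θ` from the `|t_l|`, no nonzero polynomial of degree at most `d` in each variable with
integer coefficients of absolute value at most `H(q) ^ A` takes at the `4 n + 1` numbers `π` and `log x_k`, `j (z_k)`,
`D j (z_k)`, `D² j (z_k)`, where `exp (2πi z_k) = x_k = q_k`, a value of absolute value at most `H(q) ^ (-B)`, `H(q)` the height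
of `q`. Here `Q` can be a small power of `X`. We prove a similar result for the integer vectors near `N_n α`, `N_n` a lacunary
sequence (for instance the truncations of the expansions in base `g`, `N_n = g^n`), for all real vectors `α` outside a set of
dimension less than `D`, and `M`, `z` with entries up to a power of `N_n`.

The starting theorem `AlmostAllRationalNomes` bounds the number of the exceptional `q` with denominators at most `T`. The products
of `h` integers form a set of density zero, and so the result for `h ≥ 2` does not follow from this number alone: the divisor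
bound shows that few vectors `y` have products near the denominators and numerators of an exceptional tuple, and for each of the
possible `M`, `z` the map `x ↦ M x + z` has small fibres (engine of helper469, `Run7/h469/Vm`, here extended to windows). The
file `GenericLinearForms` is about linear forms with real coefficients, outside a set of coefficients of small dimension.
-/

set_option autoImplicit false

namespace Pool.Agent.Results.MP_5e64e7_nt.ProductsOfLinearForms

open MeasureTheory
open AlmostAllRationalNomes (numbers)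
open Run7.h469.Vk (Hits Lacunary Generic Avoids)
open Run7.h469.Vm (ProductIn)

/-- the height of a tuple of rational numbers: the maximum of the absolute values of the numerators and denominators -/
def ht {n : ℕ} (q : Fin n → ℚ) : ℕ := Finset.univ.sup fun j => max (q j).num.natAbs (q j).den

/-- The tuple `q` has a small relation: a nonzero polynomial of degree at most `d` in each variable with integer coefficients of
absolute value at most `ht q ^ A` takes at the `4 n + 1` numbers `π` and `log x_k`, `j (z_k)`, `D j (z_k)`, `D² j (z_k)`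
(`exp (2πi z_k) = x_k = q_k`) a value of absolute value at most `ht q ^ (-B)`. -/
def SmallRelation {n : ℕ} (d : ℕ) (A B : ℝ) (q : Fin n → ℚ) : Prop :=
  ∃ P : MvPolynomial (Option (Fin n × Fin 4)) ℤ, P ≠ 0 ∧ (∀ x, P.degreeOf x ≤ d) ∧
    (∀ s, |((P.coeff s : ℤ) : ℝ)| ≤ (ht q : ℝ) ^ A) ∧ ‖MvPolynomial.aeval (numbers q) P‖ ≤ (ht q : ℝ) ^ (-B)

/-- The denominators and the numerators of the `q_j` differ by at most `R ‖t‖ ^ θ` from the absolute values of the coordinates
of `t` with the numbers `(j, 0)` (denominator) and `(j, 1)` (numerator). -/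
def Near {n : ℕ} (R θ : ℝ) (t : Fin (n * 2) → ℤ) (q : Fin n → ℚ) : Prop :=
  ∀ j, |((q j).den : ℝ) - (|(t (finProdFinEquiv (j, 0)) : ℝ)|)| ≤ R * ‖fun i => (t i : ℝ)‖ ^ θ ∧
    |(|((q j).num : ℝ)|) - (|(t (finProdFinEquiv (j, 1)) : ℝ)|)| ≤ R * ‖fun i => (t i : ℝ)‖ ^ θ

/-- The integer vectors which are near a tuple of rational numbers in `[a, b]` with a small relation. -/
def Bad (n d : ℕ) (a b A B R θ : ℝ) : Set (Fin (n * 2) → ℤ) :=
  {t | ∃ q : Fin n → ℚ, (∀ j, a ≤ q j ∧ q j ≤ b) ∧ Near R θ t q ∧ SmallRelation d A B q}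

/-- **Theorem.** Let `n ≥ 1`, `[a, b] ⊂ (0, 1)`, `A ≥ 0` and `β > 2 - 2 / ((d + 1)^(4 n + 1) + 1)`. There is `B` such that for
all `h ≥ 1`, `θ, R ≥ 0`, `0 ≤ σ ≤ 1`, `σ < h (2 - β - 2 n θ)`:
(1) there is `C` such that for all `D` and `X, Q ≥ 1`, for all but
`C ((D + 1)^(2 n h) 3^((2 n h + 1) (D + 1))) Q^(2 n h (D + 2)) X^(D - σ)` of the integer vectors `x` in `[-X, X]^D` no vector `t` of
the products `t_l = ∏_(i ≤ h) y_(l,i)` of nonzero coordinates of a vector `y = M x + z`, `M` integral of rank `2 n h`, with entries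
of `M` and `z` at most `Q`, is near a tuple `q` in `[a, b]^n` with a small relation; (2) for lacunary `N_i` and `κ ≥ 0`, outside a
set of `α` in `ℝ^D` of dimension at most `D - σ + 2 n h (D + 2) κ` (and almost everywhere for measures of larger dimension), for
all `A'`, for all large `i` the same is true for the integer vectors `x` with `|x - N_i α| ≤ A'` and `M`, `z` with entries at most
`A' N_i^κ`; (3) in particular it is true for almost all `α`, if `2 n h (D + 2) κ < σ`. -/
theorem result (n d : ℕ) (hn : 1 ≤ n) (a b : ℝ) (ha : 0 < a) (hab : a < b) (hb : b < 1) (A β : ℝ) (hA : 0 ≤ A)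
    (hβ : 2 - 2 / (((d : ℝ) + 1) ^ (4 * n + 1) + 1) < β) :
    ∃ B : ℝ, ∀ h : ℕ, 1 ≤ h → ∀ θ R σ : ℝ, 0 ≤ θ → 0 ≤ R → 0 ≤ σ → σ ≤ 1 → σ < h * (2 - β - 2 * n * θ) →
      (∃ C : ℝ, ∀ D X Q : ℕ, 1 ≤ X → 1 ≤ Q →
        (({x : Fin D → ℤ | (∀ j, |x j| ≤ X) ∧ x ∈ Hits (ProductIn h (Bad n d a b A B R θ)) D Q}.ncard : ℕ) : ℝ) ≤
          C * (((D : ℝ) + 1) ^ (n * 2 * h) * 3 ^ ((n * 2 * h + 1) * (D + 1))) * (Q : ℝ) ^ (n * 2 * h * (D + 2)) *
            (X : ℝ) ^ ((D : ℝ) - σ)) ∧
      (∀ D : ℕ, 1 ≤ D → ∀ N : ℕ → ℝ, Lacunary N → ∀ κ : ℝ, 0 ≤ κ →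
        Generic ((D : ℝ) - σ + n * 2 * h * (D + 2) * κ)
          (fun α : Fin D → ℝ => Avoids (ProductIn h (Bad n d a b A B R θ)) N κ α)) ∧
      ∀ D : ℕ, 1 ≤ D → ∀ N : ℕ → ℝ, Lacunary N → ∀ κ : ℝ, 0 ≤ κ → n * 2 * h * (D + 2) * κ < σ →
        ∀ᵐ α : Fin D → ℝ, Avoids (ProductIn h (Bad n d a b A B R θ)) N κ α := by
  obtain ⟨B, hB⟩ := Run7.h95.NP.poly_tuple_near hn (fun _ => a) (fun _ => b)
    (fun q P => ‖MvPolynomial.aeval (numbers q) P‖) d hA (Pool.Agent.R482.ST.beta_pos hβ)
    (AlmostAllRationalNomes.result n d hn a b ha hab hb A β hA hβ)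
  refine ⟨B, fun h hh θ R σ hθ hR hσ hσ1 hσh => ?_⟩
  obtain ⟨C, hC⟩ := hB h hh θ R σ hθ hR hσ hσ1 hσh
  have h1 := hC (Bad n d a b A B R θ) fun t ht => ht
  exact ⟨⟨C, h1.1⟩, h1.2⟩

end Pool.Agent.Results.MP_5e64e7_nt.ProductsOfLinearForms
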